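import Pool.Agent.Run7.h45.KbG

/-!
# Brauer's `k(B)` conjecture: all or nothing, in one sequence of groups

`O` is a valuation subring of `ℂ` whose maximal ideal contains `p`; it defines the `p`-blocks of
finite groups, as sets of irreducible characters. Let `q ≥ 2` be an integer not divisible by `p`, and
let `Γ_n = M_n(ℤ/q) ⋊ S_n` be the semidirect product of the additive group of the `n × n` matrices over
`ℤ/q` with `S_n`, which permutes the rows and the columns simultaneously.

Proof. The stabiliser in `S_n` of a character `θ` of `V = M_n(ℤ/q)` is the automorphism group of a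
coloured digraph on `n` points. For every finite group `G` there is a constant `c` such that for all
`n ≥ c k` the direct power `G^k` is the stabiliser of some `θ`. The irreducible characters of `Γ_n`
above the `S_n`-orbit of `θ` are in bijection with those of `G^k`; since `p` does not divide `|V|`,
this bijection maps blocks to blocks, and defect groups of corresponding blocks are isomorphic
(`Run7.h45.CD.up_block`, `Run7.h45.CD.up_defect`). So the block `B^{⊗k}` of `G^k`, with `k(B)^k`
characters and defect group `D^k`, is realised in `Γ_n`. If `k(B)^k ≤ exp (ε n) |D|^k`, where `n` is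
about `c k`, then `k(B) ≤ exp (c ε) |D|`.
-/

set_option autoImplicit false

namespace Pool.Agent.Results.MP_a15589_al.AllOrNothing

open Filter Run7.h45 Pool.Agent.N19.RB Pool.Agent.H254R3.IN

/-- **All or nothing.** Let `p` be a prime, `q ≥ 2` an integer not divisible by `p` and `C` a class of
groups closed under isomorphisms and finite powers. The inequality `k(B) ≤ |D|` holds for all
`p`-blocks `B` of all finite groups with defect group `D` in `C` if and only if for every `ε > 0` there
are infinitely many `n` such that `k(B) ≤ exp (ε n) |D|` for all such blocks of `M_n(ℤ/q) ⋊ S_n`. -/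
theorem result (p : ℕ) [Fact p.Prime] (O : ValuationSubring ℂ) (hpO : (p : ℂ) ∈ O.nonunits)
    (q : ℕ) (hq : 2 ≤ q) (hpq : ¬ p ∣ q) (C : (D : Type) → Group D → Prop) (hC : PowClosed C) :
    (∀ (G : Type) [Group G] [Finite G] (B : Set (G → ℂ)) (D : Subgroup G), IsBlock O B →
      IsDefectGroup p O B D → C D inferInstance → Nat.card B ≤ Nat.card D) ↔
      ∀ ε : ℝ, 0 < ε → ∃ᶠ n : ℕ in atTop, KBWithin p O C (MatGrp q n) (Real.exp (ε * n)) :=
  kb_iff_mat hpO hq hpq hC

end Pool.Agent.Results.MP_a15589_al.AllOrNothing
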