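import Mathlib
import Pool.Agent.Run7.h179.KbJ

/-!
Brauer's inequality `k(B) ≤ |D|` for blocks having a major subsection `(u, b)` such that `l(b)` is
small in comparison with the quotient `q` of `|D|` by the second largest elementary divisor of the
Cartan matrix of `b`.
-/

namespace Pool.Agent.Results.MP_a15589_al.CartanDivisors

open Pool.Agent.H254R3.IN Pool.Agent.N20 Run7.h179.Kb

/-- Let `B` be a `p`-block of a finite group `G` with defect group `D` and let `(u, b)` be a major
subsection of `B`: `u` is a `p`-element of `G` and `b` is a block of `C_G(u)` with `b^G = B` whose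
defect groups have order `|D|` (for example `u = 1` and `b = B`). Let `C` be the Cartan matrix of
`b`, an `l × l` matrix with `l = l(b)`, let `U C V = diag(e)` with unimodular matrices `U`, `V`,
and suppose that all the `e j` but one divide `E = |D| / q`, where `q = p ^ a` and `a ≥ 1`; so `E`
may be taken to be the second largest elementary divisor of `C`. Then the following hold.
1. If all the characters in `B` have height zero, then `(q + 1) k(B) ≤ |D| max(q + 1, l)`.
2. The number of the characters in `B` with `p ^ (2 h) ≤ q`, `h` the height, is at most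
   `|D| max(1, l / q)`.
3. If `a ≥ 2`, then `q k(B) ≤ |D| max(q, l + q / p² - 1)`. In particular `k(B) ≤ |D|` if
   `l ≤ q - q / p² + 1`.
(By a theorem of Brauer the hypothesis is always satisfied with `q = p`.) -/
theorem result {G : Type} [Group G] [Finite G] {p : ℕ} (hp : p.Prime) (O : ValuationSubring ℂ)
    (hpO : (p : ℂ) ∈ O.nonunits) (B : Set (G → ℂ)) (hB : IsBlock O B) (D : Subgroup G)
    (hD : IsDefectGroup p O B D) (u : G) (k : ℕ) (hu : orderOf u = p ^ k)
    (b : Set (Subgroup.centralizer ({u} : Set G) → ℂ)) (hb : IsBlock O b)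
    (Q : Subgroup (Subgroup.centralizer ({u} : Set G))) (hQ : IsDefectGroup p O b Q)
    (hcard : Nat.card Q = Nat.card D) (hbB : Induces O B (Subgroup.centralizer ({u} : Set G)) b)
    (l : ℕ) (C : Matrix (Fin l) (Fin l) ℤ) (hC : IsCartan p b C)
    (U V : Matrix (Fin l) (Fin l) ℤ) (hU : IsUnit U.det) (hV : IsUnit V.det) (e : Fin l → ℤ)
    (hdiag : U * C * V = Matrix.diagonal e) (j₀ : Fin l) (E a : ℕ) (ha : 0 < a)
    (hE : E * p ^ a = Nat.card D) (he : ∀ j, j ≠ j₀ → e j ∣ (E : ℤ)) :
    ((∀ χ ∈ B, HeightZero p D χ) →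
      (p ^ a + 1) * Nat.card B ≤ Nat.card D * max (p ^ a + 1) l) ∧
    p ^ a * Nat.card {χ : G → ℂ // χ ∈ B ∧ ∃ h, HasHeight p D χ h ∧ p ^ (2 * h) ≤ p ^ a} ≤
      Nat.card D * max (p ^ a) l ∧
    (2 ≤ a → p ^ a * Nat.card B ≤ Nat.card D * max (p ^ a) (l + p ^ (a - 2) - 1)) ∧
    (2 ≤ a → l + p ^ (a - 2) ≤ p ^ a + 1 → Nat.card B ≤ Nat.card D) := by
  classical
  have := Fintype.ofFinite G
  have : Fact p.Prime := ⟨hp⟩
  have hE' : E * p ^ a = Nat.card Q := by rw [hE, hcard]
  have hmin : MinorsDvd p b (Nat.card Q) (p ^ a) :=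
    cartan_minors hpO hb hQ hC hU hV hdiag j₀ hE' he
  have hl : lB p b = l := cartan_size hpO hb hQ hC
  have h3 : 2 ≤ a → p ^ a * Nat.card B ≤ Nat.card D * max (p ^ a) (l + p ^ (a - 2) - 1) := by
    intro ha2
    have h := all_heights hp ha2 hpO hB hD hu hb hQ hbB hmin hcard
      (Dvd.intro_left E hE)
    rw [hl] at h
    exact h
  refine ⟨fun hall => ?_, ?_, h3, fun ha2 hle => ?_⟩
  · have h := ht_zero hp ha hpO hB hD hu hb hQ hbB hmin
    rw [hl, hcard] at h
    have hc : Nat.card {χ : G → ℂ // χ ∈ B ∧ HeightZero p D χ} = Nat.card B := by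
      refine Nat.card_congr (Equiv.subtypeEquivRight fun χ => ?_)
      exact ⟨fun h => h.1, fun h => ⟨h, hall χ h⟩⟩
    rw [hc] at h
    exact h
  · have h := ht_small hp ha hpO hB hD hu hb hQ hbB hmin hcard
    rw [hl] at h
    exact h
  · have h := h3 ha2
    have hpos : 0 < p ^ a := pow_pos hp.pos a
    rw [max_eq_left (by omega), mul_comm (Nat.card D)] at h
    exact Nat.le_of_mul_le_mul_left h hpos

end Pool.Agent.Results.MP_a15589_al.CartanDivisors
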