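import Pool.Agent.Run7.h45.KbG
import Pool.Agent.Run7.h45.Univ

/-!
# Brauer's `k(B)` conjecture and perfect groups with alternating composition factors

`O` is a valuation subring of `ℂ` whose maximal ideal contains `p`; it defines the `p`-blocks of
finite groups, as sets of irreducible characters. For a subgroup `H` of the alternating group `A_n`
let `Z(A_n/H)` be the group of the functions `A_n/H → ℤ/q` with sum `0`, and let `Z(A_n/H) ⋊ A_n` be its
extension by `A_n`, which permutes the cosets.

Proof. Let `G` be a finite group. For some constant `c` and all `n ≥ c k` the group `G^k` embeds into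
`A_n` as a subgroup `H` of index at least `3`. The evaluation at the trivial coset gives a character of
`Z(A_n/H)` with stabiliser `H ≅ G^k`. The characters above its orbit correspond to the characters of
`G^k`; blocks correspond to blocks, and the defect groups are isomorphic. The block `B^{⊗k}` of `G^k`
has `k(B)^k` characters and the defect group `D^k`.
-/

set_option autoImplicit false

namespace Pool.Agent.Results.MP_a15589_al.PerfectGroups

open Filter Run7.h45 Pool.Agent.N19.RB Pool.Agent.H254R3.IN

/-- Let `p` be a prime and `q ≥ 2` an integer not divisible by `p`. (1) For `n ≥ 5` and all subgroups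
`H ≤ A_n` the group `Z(A_n/H) ⋊ A_n` is perfect. (2) Let `C` be a class of groups closed under
isomorphisms and finite powers. The inequality `k(B) ≤ |D|` holds for all `p`-blocks `B` of all finite
groups with defect group `D` in `C` if and only if for every `ε > 0` there are infinitely many `n`
such that `k(B) ≤ exp (ε n) |D|` for all `H ≤ A_n` and all such blocks of `Z(A_n/H) ⋊ A_n`. -/
theorem result (p : ℕ) [Fact p.Prime] (O : ValuationSubring ℂ) (hpO : (p : ℂ) ∈ O.nonunits)
    (q : ℕ) (hq : 2 ≤ q) (hpq : ¬ p ∣ q) :
    (∀ n : ℕ, 5 ≤ n → ∀ H : Subgroup (alternatingGroup (Fin n)),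
      commutator (ZSGrp q (alternatingGroup (Fin n)) H) = ⊤) ∧
    ∀ C : (D : Type) → Group D → Prop, PowClosed C →
      ((∀ (G : Type) [Group G] [Finite G] (B : Set (G → ℂ)) (D : Subgroup G), IsBlock O B →
        IsDefectGroup p O B D → C D inferInstance → Nat.card B ≤ Nat.card D) ↔
        ∀ ε : ℝ, 0 < ε → ∃ᶠ n : ℕ in atTop, ∀ H : Subgroup (alternatingGroup (Fin n)),
          KBWithin p O C (ZSGrp q (alternatingGroup (Fin n)) H) (Real.exp (ε * n))) := by
  have : NeZero q := ⟨by omega⟩
  exact ⟨fun n hn H => perfect_alt hn H, fun C hC => kb_iff_alt hpO hq hpq hC⟩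

end Pool.Agent.Results.MP_a15589_al.PerfectGroups
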