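import Pool.Agent.Run7.h45.Den5

/-!
# Brauer's `k(B)` conjecture: rare exceptions do not exist

`O` is a valuation subring of `ℂ` whose maximal ideal contains `p`; it defines the `p`-blocks of
finite groups, as sets of irreducible characters. Let `q ≥ 2` be an integer not divisible by `p`, and
let `Γ_n = M_n(ℤ/q) ⋊ S_n` be the semidirect product of the additive group of the `n × n` matrices over
`ℤ/q` with `S_n`, which permutes the rows and the columns simultaneously.

Outline. Let `B` be a block of a finite group `G` with defect group `D` and `k(B) > |D|`. For all large
`n` the group `G` embeds in `S_n` in such a way that its image is the stabilizer of at least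
`q ^ (n² - c n log₂ n)` matrices in `M_n(ℤ/q)` in different orbits (`Run7.h45.many`). The linear
characters of `M_n(ℤ/q)` given by these matrices have the stabilizer `M_n(ℤ/q) ⋊ G`, and over each of
them there is one block of `Γ_n` corresponding to `B`, with a defect group isomorphic to `D` and with
`k(B)` characters; different orbits give different blocks. The number of all blocks of `Γ_n` is at most
`|Γ_n| = q ^ n² n!`.
-/

set_option autoImplicit false

namespace Pool.Agent.Results.MP_a15589_al.RareExceptions

open Filter Run7.h45 Pool.Agent.H254R3.IN

/-- **Rare exceptions do not exist.** Let `p` be a prime, `q ≥ 2` an integer not divisible by `p` and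
`C` a class of groups closed under isomorphisms, for instance the groups isomorphic to one given
`p`-group. The inequality `k(B) ≤ |D|` holds for all `p`-blocks `B` of all finite groups with defect
group `D` in `C` if and only if for every `c` there are infinitely many `n` such that the proportion of
the blocks with defect group in `C` for which it fails among all blocks of `M_n(ℤ/q) ⋊ S_n` is less than
`n ^ (-c n)`. -/
theorem result (p : ℕ) [Fact p.Prime] (O : ValuationSubring ℂ) (hpO : (p : ℂ) ∈ O.nonunits)
    (q : ℕ) (hq : 2 ≤ q) (hpq : ¬ p ∣ q) (C : (D : Type) → Group D → Prop)
    (hC : ∀ (D E : Type) [i : Group D] [j : Group E], Nonempty (D ≃* E) → C D i → C E j) :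
    (∀ (G : Type) [Group G] [Finite G] (B : Set (G → ℂ)) (D : Subgroup G), IsBlock O B →
      IsDefectGroup p O B D → C D inferInstance → Nat.card B ≤ Nat.card D) ↔
      ∀ c : ℕ, ∃ᶠ n : ℕ in atTop,
        (BlockSets O (MatGrp q n) (KBFails p O C)).ncard * n ^ (c * n) <
          (BlockSets O (MatGrp q n) fun _ => True).ncard :=
  kb_iff_dens hpO hq hpq hC

end Pool.Agent.Results.MP_a15589_al.RareExceptions
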